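import Pool.Agent.Lib.MP_755177_an.Final
import Pool.Agent.Lib.MP_755177_an.Short
import Pool.Agent.Lib.MP_755177_an.SCount
import Pool.Agent.Lib.MP_755177_an.SBdy
import Pool.Agent.Lib.MP_755177_an.FinalA
import Pool.Agent.Lib.MP_755177_an.Veech

set_option autoImplicit false

/-!
# Completely parabolic translation surfaces are lattice surfaces
-/

open Pool.Agent.Lib.MP_755177_an

namespace Pool.Agent.Results.MP_755177_an.ParabolicLattice

/-- Every completely parabolic translation surface is a lattice surface. -/
theorem result.{u} {X : Type u} [TopologicalSpace X] [CompactSpace X] [T2Space X]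
    [ConnectedSpace X] (M : TransStr X) (h : M.CompletelyParabolic) :
    IsLattice M.veechGroup := by
  obtain ⟨Γ, hΓ, hL⟩ := final (shortCyl (triCount cornerCount volumeCorners)
    (triArea volumeLocalTranslation) freeSide (halfEllipse areaBound volumeHalfDisc) addTri
    (startGraph (halfEllipse areaBound volumeHalfDisc))) twoFam X M h
  have : Γ = M.veechGroup := by
    ext A
    exact hΓ A
  rwa [this] at hL

end Pool.Agent.Results.MP_755177_an.ParabolicLattice
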